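import Pool.Agent.TH167.SH.Irr
import Pool.Agent.TH167.Neg.Dim

set_option autoImplicit false

/-!
# Very general points, and negative curves
-/

namespace Pool.Agent.TH167.SH

open MvPolynomial Pool.Agent.W609 Pool.Agent.W609.CR

/-- The very general points: a countable family of nonzero polynomials. -/
theorem exists_fam (σ : Type) [Finite σ] : ∃ F : ℕ → MvPolynomial σ ℂ, (∀ j, F j ≠ 0) ∧
    ∀ x : σ → ℂ, (∀ j, eval x (F j) ≠ 0) ↔ AlgebraicIndependent ℚ x := by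
  classical
  have hc : Countable (MvPolynomial σ ℚ) := by
    rw [← Cardinal.mk_le_aleph0_iff]
    refine MvPolynomial.cardinalMk_le_max.trans ?_
    simp only [max_le_iff]
    exact ⟨⟨Cardinal.mk_le_aleph0, Cardinal.mk_le_aleph0⟩, le_rfl⟩
  have hne : Nonempty {f : MvPolynomial σ ℚ // f ≠ 0} := ⟨⟨1, one_ne_zero⟩⟩
  obtain ⟨g, hg⟩ := exists_surjective_nat {f : MvPolynomial σ ℚ // f ≠ 0}
  refine ⟨fun j => (g j).1.map (algebraMap ℚ ℂ), fun j h0 => (g j).2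
    (MvPolynomial.map_injective (algebraMap ℚ ℂ) (algebraMap ℚ ℂ).injective
      (h0.trans (map_zero _).symm)), fun x => ⟨fun hx => ?_, fun hx j h0 => ?_⟩⟩
  · rw [algebraicIndependent_iff]
    intro p hp
    by_contra hne0
    obtain ⟨j, hj⟩ := hg ⟨p, hne0⟩
    refine hx j ?_
    show eval x ((g j).1.map (algebraMap ℚ ℂ)) = 0
    rw [hj, eval_map]
    exact hp
  · rw [algebraicIndependent_iff] at hx
    refine (g j).2 (hx _ ?_)
    rw [eval_map] at h0
    exact h0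

/-- Negative curves with few large multiplicities. -/
theorem neg_conv {r m : ℕ} (hm : 0 < m) {P : Fin (r + 4) → Fin 2 → ℂ}
    (hP : AlgebraicIndependent ℚ (fun ij : Fin (r + 4) × Fin 2 => P ij.1 ij.2)) {e : ℕ}
    {w : Fin (r + 4) → ℕ} {G : MvPolynomial (Fin 3) ℂ} (hG : SHDefs.Curve P G e w)
    (hneg : SHDefs.inter e w e w < 0) (hw : SHDefs.FewLarge m e w) :
    SHDefs.MinusOne P G e w ∨
    ∃ (P1 : Fin (r + 4) → Fin 2 → ℂ) (G1 : MvPolynomial (Fin 3) ℂ) (e1 : ℕ)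
      (w1 : Fin (r + 4) → ℕ),
      AlgebraicIndependent ℚ (fun ij : Fin (r + 4) × Fin 2 => P1 ij.1 ij.2) ∧
      SHDefs.Curve P1 G1 e1 w1 ∧ SHDefs.ReducesTo (SHDefs.bd m) e w e1 w1 ∧
      SHDefs.inter e1 w1 e1 w1 = SHDefs.inter e w e w ∧ SHDefs.interK e1 w1 = SHDefs.interK e w ∧
      SHDefs.virtdim e w < 0 := by
  obtain ⟨h1, h2, h3⟩ := curve_iff.1 hG
  have hd := Neg.neg_dim P (inj_of_alg hP) w G e h1 h2 h3 (by
    unfold SHDefs.inter at hneg
    have h4 : (e : ℤ) * e < ∑ j, (w j : ℤ) * w j := by omega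
    have h5 : ((e ^ 2 : ℕ) : ℤ) < ((∑ j, w j ^ 2 : ℕ) : ℤ) := by
      push_cast
      simpa [sq] using h4
    exact_mod_cast h5)
  rcases irr_main hm rfl e P hP w hw G h1 h2 h3 with ⟨c1, c2⟩ | ⟨P1, e1, w1, G1, a1, a2, a3, a4, a5,
    a6, a7, a8, a9, a10, a11, a12⟩
  · left
    rw [inter_eq] at hneg
    obtain ⟨c3, c4⟩ := c2 hneg
    refine ⟨hG, ?_, ?_⟩
    · rw [inter_eq, c3]
    · rw [interK_eq, c4]
  · right
    obtain ⟨q1, q2, q3⟩ := quad_inv a5
    simp only at q1 q2 q3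
    refine ⟨P1, G1, e1, w1, a1, curve_iff.2 ⟨a2, a3, a4⟩, ⟨chain_conv a5, a6, a7, a8⟩, ?_, ?_, ?_⟩
    · rw [inter_eq, inter_eq]
      omega
    · rw [interK_eq, interK_eq]
      omega
    · rw [virtdim_eq]
      have h6 := chi_le_dim P e w
      rw [hd] at a12 h6
      push_cast at a12 h6
      omega

end Pool.Agent.TH167.SH
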