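import Pool.Agent.TH167.SH.Defs
import Pool.Agent.TH167.SH.Final

set_option autoImplicit false

/-!
# Translation
-/

namespace Pool.Agent.TH167.SH

open MvPolynomial Pool.Agent.W609 Pool.Agent.W609.CR

theorem sys_eq {K : Type} [Field K] {s : ℕ} (P : Fin s → Fin 2 → K) (d : ℕ) (w : Fin s → ℕ) :
    SHDefs.sys P d w = VS (fun j => aff (P j)) w d := by
  rw [vs_eq_forms]
  ext f
  unfold SHDefs.sys H248R5.forms
  rw [Submodule.mem_inf, Submodule.mem_inf, Submodule.restrictScalars_mem,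
    Submodule.restrictScalars_mem]
  rfl

theorem curve_iff {K : Type} [Field K] {s : ℕ} {P : Fin s → Fin 2 → K}
    {G : MvPolynomial (Fin 3) K} {d : ℕ} {w : Fin s → ℕ} :
    SHDefs.Curve P G d w ↔ (Irreducible G ∧ G.IsHomogeneous d ∧ ∀ j, Ord (aff (P j)) (w j) G) := by
  constructor
  · rintro ⟨h1, h2, h3⟩
    exact ⟨h1, h2, fun j => ⟨(t_link K (P j) (w j) G d h2).2 (h3 j).1,
      fun h => (h3 j).2 ((t_link K (P j) (w j + 1) G d h2).1 h)⟩⟩
  · rintro ⟨h1, h2, h3⟩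
    exact ⟨h1, h2, fun j => ⟨(t_link K (P j) (w j) G d h2).1 (h3 j).1,
      fun h => (h3 j).2 ((t_link K (P j) (w j + 1) G d h2).2 h)⟩⟩

theorem inter_eq {s : ℕ} (d : ℕ) (w : Fin s → ℕ) (e : ℕ) (u : Fin s → ℕ) :
    SHDefs.inter d w e u = ip d w e u := rfl

theorem interK_eq {s : ℕ} (d : ℕ) (w : Fin s → ℕ) : SHDefs.interK d w = - kk d w := by
  unfold SHDefs.interK kk
  ring

theorem minusOne_iff {K : Type} [Field K] {s : ℕ} {P : Fin s → Fin 2 → K}
    {G : MvPolynomial (Fin 3) K} {d : ℕ} {w : Fin s → ℕ} :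
    SHDefs.MinusOne P G d w ↔ Exc P G d w := by
  constructor
  · rintro ⟨h1, h2, h3⟩
    obtain ⟨c1, c2, c3⟩ := curve_iff.1 h1
    refine ⟨c1, c2, c3, self_iff.2 h2, can_iff.2 ?_⟩
    rw [interK_eq] at h3
    omega
  · intro h
    refine ⟨curve_iff.2 ⟨h.irr, h.hom, h.ord⟩, self_iff.1 h.self, ?_⟩
    rw [interK_eq, can_iff.1 h.can]

theorem decomp_iff {K : Type} [Field K] {s : ℕ} {P : Fin s → Fin 2 → K} {d : ℕ}
    {w : Fin s → ℕ} {d' : ℕ} {w' : Fin s → ℕ} {k : ℕ} {C : Fin k → MvPolynomial (Fin 3) K}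
    {e : Fin k → ℕ} {u : Fin k → Fin s → ℕ} {N : Fin k → ℕ} :
    SHDefs.Decomp P d w d' w' C e u N ↔ Dcp P d w d' w' C e u N := by
  constructor
  · rintro ⟨h1, h2, h3, h4, h5, h6⟩
    exact ⟨fun a => minusOne_iff.1 (h1 a), h2, h3, h4, h5, h6⟩
  · rintro ⟨h1, h2, h3, h4, h5, h6⟩
    exact ⟨fun a => minusOne_iff.2 (h1 a), h2, h3, h4, h5, h6⟩

theorem virtdim_eq {s : ℕ} (d : ℕ) (w : Fin s → ℕ) : SHDefs.virtdim d w = chi d w - 1 := by
  unfold SHDefs.virtdim chi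
  ring

theorem dimL_eq {K : Type} [Field K] {s : ℕ} (P : Fin s → Fin 2 → K) (d : ℕ) (w : Fin s → ℕ) :
    SHDefs.dimL P d w = (Module.finrank K ↥(VS (fun j => aff (P j)) w d) : ℤ) - 1 := by
  unfold SHDefs.dimL
  rw [sys_eq]

theorem special_conv {K : Type} [Field K] {s : ℕ} (P : Fin s → Fin 2 → K) (d : ℕ)
    (w : Fin s → ℕ) : SHDefs.Special P d w ↔ Special P d w := by
  unfold SHDefs.Special Special
  rw [dimL_eq, virtdim_eq]
  constructor
  · intro h1 h2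
    apply h1
    rw [h2]
    rcases le_total 0 (chi d w) with h3 | h3
    · rw [max_eq_right h3, max_eq_left (by omega)]
    · rw [max_eq_left h3, max_eq_right (by omega)]
      rfl
  · intro h1 h2
    apply h1
    rcases le_total 0 (chi d w) with h3 | h3
    · rw [max_eq_right h3]
      rw [max_eq_left (by omega)] at h2
      omega
    · rw [max_eq_left h3]
      rw [max_eq_right (by omega)] at h2
      omega

theorem mspecial_conv {K : Type} [Field K] {s : ℕ} (P : Fin s → Fin 2 → K) (d : ℕ)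
    (w : Fin s → ℕ) : SHDefs.MinusOneSpecial P d w ↔ MSpecial P d w := by
  unfold SHDefs.MinusOneSpecial MSpecial
  constructor
  · rintro ⟨d', w', k, C, e, u, N, h1, h2, h3⟩
    rw [virtdim_eq] at h2
    exact ⟨d', w', k, C, e, u, N, decomp_iff.1 h1, by omega, h3⟩
  · rintro ⟨d', w', k, C, e, u, N, h1, h2, h3⟩
    refine ⟨d', w', k, C, e, u, N, decomp_iff.2 h1, ?_, h3⟩
    rw [virtdim_eq]
    omega

theorem quad_conv {s : ℕ} {a b : ℕ × (Fin s → ℕ)} (h : Quad a b) : SHDefs.Quadratic a b := by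
  obtain ⟨i, hi, p, rfl⟩ := h
  obtain ⟨b0, b1, b2⟩ := ic_base i
  have h0 := wcr_cast hi p (i 0)
  have h1 := wcr_cast hi p (i 1)
  have h2 := wcr_cast hi p (i 2)
  rw [b0] at h0
  rw [b1] at h1
  rw [b2] at h2
  have h3 := cd_cast p
  refine ⟨i 0, i 1, i 2, (ne10 hi).symm, (ne20 hi).symm, (ne21 hi).symm, ?_, ?_, ?_, ?_, ?_⟩
  · show ((cd i a.1 a.2 : ℕ) : ℤ) = _
    rw [h3]
    unfold dl
    ring
  · show ((wcr a.1 i a.2 (i 0) : ℕ) : ℤ) = _
    rw [h0]
    unfold dl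
    ring
  · show ((wcr a.1 i a.2 (i 1) : ℕ) : ℤ) = _
    rw [h1]
    unfold dl
    ring
  · show ((wcr a.1 i a.2 (i 2) : ℕ) : ℤ) = _
    rw [h2]
    unfold dl
    ring
  · intro l l0 l1 l2
    show wcr a.1 i a.2 l = a.2 l
    unfold wcr
    rw [if_neg l0, if_neg l1, if_neg l2]

theorem chain_conv {s : ℕ} {a b : ℕ × (Fin s → ℕ)} (h : Relation.ReflTransGen Quad a b) :
    Relation.ReflTransGen SHDefs.Quadratic a b :=
  Relation.ReflTransGen.mono (fun _ _ h => quad_conv h) _ _ h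

theorem map_ne {σ : Type} {K : Type} [Field K] [CharZero K] {F : MvPolynomial σ ℚ} (h : F ≠ 0) :
    F.map (algebraMap ℚ K) ≠ 0 :=
  fun h0 => h (MvPolynomial.map_injective (algebraMap ℚ K) (algebraMap ℚ K).injective
    (h0.trans (map_zero _).symm))

theorem evP_eval {K : Type} [Field K] [CharZero K] {s : ℕ} (P : Fin s → Fin 2 → K)
    (F : MvPolynomial (Fin s × Fin 2) ℚ) :
    MvPolynomial.eval (fun ij : Fin s × Fin 2 => P ij.1 ij.2) (F.map (algebraMap ℚ K)) =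
      evP P F := by
  rw [MvPolynomial.eval_map]
  rfl

/-- The arithmetic genus. -/
theorem genus_eq {s : ℕ} (d : ℕ) (w : Fin s → ℕ) :
    2 * (chi d w - kk d w) = ((d : ℤ) - 1) * ((d : ℤ) - 2) - ∑ i, (w i : ℤ) * ((w i : ℤ) - 1) := by
  have h1 := two_chi d w
  unfold ip at h1
  unfold kk at h1 ⊢
  have h2 : ∀ i, (w i : ℤ) * ((w i : ℤ) - 1) = (w i : ℤ) * w i - w i := fun i => by ring
  rw [Finset.sum_congr rfl fun i _ => h2 i, Finset.sum_sub_distrib]
  linarith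

end Pool.Agent.TH167.SH
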