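import Pool.Agent.TH167.SH.Defs3
import Pool.Agent.TH167.SH.Segre

set_option autoImplicit false

/-!
# Special systems and `(-1)`-curves
-/

namespace Pool.Agent.TH167.SH

open MvPolynomial Pool.Agent.W609 Pool.Agent.W609.CR

theorem shgh_conv {r m : ℕ} (hm : 0 < m) (d : ℕ) (w : Fin (r + 4) → ℕ)
    (hw : SHDefs.FewLarge m d w) :
    ∃ F : MvPolynomial (Fin (r + 4) × Fin 2) ℂ, F ≠ 0 ∧
      ∀ P : Fin (r + 4) → Fin 2 → ℂ,
        MvPolynomial.eval (fun ij : Fin (r + 4) × Fin 2 => P ij.1 ij.2) F ≠ 0 →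
          Function.Injective P ∧ (SHDefs.Special P d w →
            (∃ (G : MvPolynomial (Fin 3) ℂ) (e : ℕ) (u : Fin (r + 4) → ℕ),
              SHDefs.MinusOne P G e u ∧ SHDefs.inter d w e u ≤ -2) ∨
            SHDefs.ExceptionalOne (SHDefs.bd m) P d w) := by
  classical
  obtain ⟨F, hF, h⟩ := hh_conv hm d w hw
  refine ⟨F, hF, fun P hP => ⟨(h P hP).1, fun hs => ?_⟩⟩
  rcases (h P hP).2 hs with h1 | ⟨d', w', k, G, e, u, N, d1, w1, c1, c2, c3, c4, c5, c6⟩
  · exact Or.inl (mspecial_curve h1)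
  · by_cases hN : ∃ a, 2 ≤ N a
    · left
      obtain ⟨a, ha⟩ := hN
      refine ⟨G a, e a, u a, c1.curve a, ?_⟩
      rw [inter_eq, (decomp_iff.1 c1).neg a]
      omega
    · right
      push Not at hN
      have h1 : N = fun _ => 1 := by
        funext a
        have h2 := hN a
        have h3 := c1.pos a
        omega
      subst h1
      exact ⟨d', w', k, G, e, u, d1, w1, c1, c2, c3, c4, c5, c6⟩

end Pool.Agent.TH167.SH
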