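import Pool.Agent.TH167.SH.Line

set_option autoImplicit false

/-!
# Decompositions of classes into `(-1)`-curves and a residual class
-/

namespace Pool.Agent.TH167.SH

open MvPolynomial Pool.Agent.W609.CR

/-- The class `(d, w)` is the sum of the residual class `(d', w')` and of the pairwise disjoint
`(-1)`-curves `C a`, of classes `(e a, u a)`, with multiplicities `N a > 0`; the residual class is
orthogonal to the `C a` and meets all `(-1)`-curves nonnegatively. -/
structure Dec {K : Type} [Field K] {s : ℕ} (P : Fin s → Fin 2 → K) (d : ℕ) (w : Fin s → ℕ)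
    (d' : ℕ) (w' : Fin s → ℕ) {k : ℕ} (C : Fin k → MvPolynomial (Fin 3) K) (e : Fin k → ℕ)
    (u : Fin k → Fin s → ℕ) (N : Fin k → ℕ) : Prop where
  exc : ∀ a, Exc P (C a) (e a) (u a)
  pos : ∀ a, 0 < N a
  orth : ∀ a b, a ≠ b → ip (e a) (u a) (e b) (u b) = 0
  deg : d = d' + ∑ a, N a * e a
  mul : ∀ j, w j = w' j + ∑ a, N a * u a j
  zero : ∀ a, ip d' w' (e a) (u a) = 0
  nef : ∀ (C : MvPolynomial (Fin 3) K) (e : ℕ) (u : Fin s → ℕ), Exc P C e u → 0 ≤ ip d' w' e u

theorem ip_comm {s : ℕ} (d e : ℕ) (w u : Fin s → ℕ) : ip d w e u = ip e u d w := by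
  unfold ip
  rw [mul_comm (d : ℤ) e]
  congr 1
  exact Finset.sum_congr rfl fun j _ => mul_comm _ _

theorem Dec.ip_eq {K : Type} [Field K] {s : ℕ} {P : Fin s → Fin 2 → K} {d : ℕ} {w : Fin s → ℕ}
    {d' : ℕ} {w' : Fin s → ℕ} {k : ℕ} {C : Fin k → MvPolynomial (Fin 3) K} {e : Fin k → ℕ}
    {u : Fin k → Fin s → ℕ} {N : Fin k → ℕ} (h : Dec P d w d' w' C e u N) (f : ℕ)
    (v : Fin s → ℕ) : ip d w f v = ip d' w' f v + ∑ a, (N a : ℤ) * ip (e a) (u a) f v := by
  unfold ip
  have h1 : ∀ j, (w j : ℤ) * v j = (w' j : ℤ) * v j + ∑ a, (N a : ℤ) * ((u a j : ℤ) * v j) := by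
    intro j
    rw [h.mul j]
    push_cast
    rw [add_mul, Finset.sum_mul]
    congr 1
    exact Finset.sum_congr rfl fun a _ => by ring
  rw [Finset.sum_congr rfl fun j _ => h1 j, Finset.sum_add_distrib, Finset.sum_comm]
  have h2 : ∑ a, (N a : ℤ) * ((e a : ℤ) * f - ∑ j, (u a j : ℤ) * v j) =
      ∑ a, (N a : ℤ) * (e a : ℤ) * f - ∑ a, ∑ j, (N a : ℤ) * ((u a j : ℤ) * v j) := by
    rw [← Finset.sum_sub_distrib]
    refine Finset.sum_congr rfl fun a _ => ?_
    rw [mul_sub, Finset.mul_sum]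
    ring
  rw [h2, h.deg]
  push_cast
  rw [add_mul, Finset.sum_mul]
  ring

theorem Dec.neg {K : Type} [Field K] {s : ℕ} {P : Fin s → Fin 2 → K} {d : ℕ} {w : Fin s → ℕ}
    {d' : ℕ} {w' : Fin s → ℕ} {k : ℕ} {C : Fin k → MvPolynomial (Fin 3) K} {e : Fin k → ℕ}
    {u : Fin k → Fin s → ℕ} {N : Fin k → ℕ} (h : Dec P d w d' w' C e u N) (a : Fin k) :
    ip d w (e a) (u a) = - (N a : ℤ) := by
  rw [h.ip_eq, h.zero a, Finset.sum_eq_single a]
  · have := (self_iff.1 (h.exc a).self)
    rw [this]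
    ring
  · intro b _ hb
    rw [h.orth b a hb, mul_zero]
  · intro h1
    exact absurd (Finset.mem_univ a) h1

theorem ip_line {s : ℕ} {i j : Fin s} (hij : i ≠ j) {u : Fin s → ℕ} (hi : u i = 1) (hj : u j = 1)
    (hl : ∀ l, l ≠ i → l ≠ j → u l = 0) (d : ℕ) (w : Fin s → ℕ) :
    ip d w 1 u = (d : ℤ) - w i - w j := by
  classical
  unfold ip
  have h1 : ∀ l, (w l : ℤ) * u l = (((if l = i ∨ l = j then 1 else 0) * w l : ℕ) : ℤ) := by
    intro l
    by_cases h : l = i ∨ l = j
    · rw [if_pos h]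
      rcases h with h | h
      · rw [h, hi]; push_cast; ring
      · rw [h, hj]; push_cast; ring
    · rw [if_neg h]
      push Not at h
      rw [hl l h.1 h.2]
      push_cast
      ring
  rw [Finset.sum_congr rfl fun l _ => h1 l, ← Nat.cast_sum, sum_two hij]
  push_cast
  ring

theorem ip_ind {s : ℕ} {i j : Fin s} (hij : i ≠ j) (d : ℕ) (w : Fin s → ℕ) :
    ip d w 1 (fun l => if l = i ∨ l = j then 1 else 0) = (d : ℤ) - w i - w j :=
  ip_line hij (if_pos (Or.inl rfl)) (if_pos (Or.inr rfl))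
    (fun l h1 h2 => if_neg (by tauto)) d w

/-- The decomposition is transported by a quadratic transformation. -/
theorem Dec.pull {K : Type} [Field K] [CharZero K] {s : ℕ} {P P' : Fin s → Fin 2 → K}
    {i : Fin 3 → Fin s}
    (hP : AlgebraicIndependent ℚ (fun ij : Fin s × Fin 2 => P ij.1 ij.2))
    (hP' : AlgebraicIndependent ℚ (fun ij : Fin s × Fin 2 => P' ij.1 ij.2))
    (hr : CRel P P' i) {d : ℕ} {w : Fin s → ℕ} (p : PS i d w)
    {d' : ℕ} {w' : Fin s → ℕ} {k : ℕ} {C : Fin k → MvPolynomial (Fin 3) K} {e : Fin k → ℕ}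
    {u : Fin k → Fin s → ℕ} {N : Fin k → ℕ}
    (h : Dec P' (cd i d w) (wcr d i w) d' w' C e u N) :
    PS i d' w' ∧ ∃ C' : Fin k → MvPolynomial (Fin 3) K,
      Dec P d w (cd i d' w') (wcr d' i w') C' (fun a => cd i (e a) (u a))
        (fun a => wcr (e a) i (u a)) N := by
  have hi := hr.inj
  have n01 := (ne10 hi).symm
  have n02 := (ne20 hi).symm
  have n12 := (ne21 hi).symm
  have pM : PS i d' w' := by
    have h1 := h.nef _ _ _ (exc_line hP' n01)
    have h2 := h.nef _ _ _ (exc_line hP' n02)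
    have h3 := h.nef _ _ _ (exc_line hP' n12)
    rw [ip_ind n01] at h1
    rw [ip_ind n02] at h2
    rw [ip_ind n12] at h3
    constructor <;> omega
  have pD := p.cr hi
  have pC : ∀ a, PS i (e a) (u a) := by
    intro a
    have hneg := h.neg a
    have hpos := h.pos a
    have key : ∀ x y : Fin s, x ≠ y → wcr d i w x + wcr d i w y ≤ cd i d w →
        u a x + u a y ≤ e a := by
      intro x y hxy hD
      rcases (h.exc a).pair (inj_of_alg hP') hxy with h1 | ⟨h1, h2, h3, h4⟩
      · exact h1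
      · exfalso
        rw [h1, ip_line hxy h2 h3 h4] at hneg
        omega
    exact ⟨key _ _ n01 pD.p01, key _ _ n02 pD.p02, key _ _ n12 pD.p12⟩
  refine ⟨pM, ?_⟩
  choose C' hC' using fun a => (h.exc a).cr hr.symm (pC a)
  refine ⟨C', ?_⟩
  have hlin : dl i (cd i d w) (wcr d i w) = dl i d' w' + ∑ a, (N a : ℤ) * dl i (e a) (u a) := by
    unfold dl
    have h1 : ∀ a, (N a : ℤ) * ((e a : ℤ) - u a (i 0) - u a (i 1) - u a (i 2)) =
        (N a : ℤ) * e a - (N a : ℤ) * u a (i 0) - (N a : ℤ) * u a (i 1) -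
          (N a : ℤ) * u a (i 2) := fun a => by ring
    rw [Finset.sum_congr rfl fun a _ => h1 a, Finset.sum_sub_distrib, Finset.sum_sub_distrib,
      Finset.sum_sub_distrib, h.deg, h.mul (i 0), h.mul (i 1), h.mul (i 2)]
    push_cast
    ring
  have hd1 : (d : ℤ) = (cd i d w : ℤ) + dl i (cd i d w) (wcr d i w) := by
    rw [← cd_cast pD, cd_cr hi p]
  have hw1 : ∀ j, (w j : ℤ) = (wcr d i w j : ℤ) + dl i (cd i d w) (wcr d i w) * ic i j := by
    intro j
    rw [← wcr_cast hi pD, wcr_cr hi p]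
  refine ⟨hC', h.pos, ?_, ?_, ?_, ?_, ?_⟩
  · intro a b hab
    rw [ip_cr hi (pC a) (pC b)]
    exact h.orth a b hab
  · have h1 : ((d : ℕ) : ℤ) = ((cd i d' w' + ∑ a, N a * cd i (e a) (u a) : ℕ) : ℤ) := by
      push_cast
      rw [hd1, hlin, cd_cast pM]
      have h2 : ∀ a, (N a : ℤ) * (cd i (e a) (u a) : ℤ) = (N a : ℤ) * e a +
          (N a : ℤ) * dl i (e a) (u a) := by
        intro a
        rw [cd_cast (pC a)]
        ring
      rw [Finset.sum_congr rfl fun a _ => h2 a, Finset.sum_add_distrib]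
      have h3 : ((cd i d w : ℕ) : ℤ) = ((d' + ∑ a, N a * e a : ℕ) : ℤ) :=
        congrArg Nat.cast h.deg
      push_cast at h3
      rw [h3]
      ring
    exact_mod_cast h1
  · intro j
    have h1 : ((w j : ℕ) : ℤ) = ((wcr d' i w' j + ∑ a, N a * wcr (e a) i (u a) j : ℕ) : ℤ) := by
      push_cast
      rw [hw1, hlin, wcr_cast hi pM]
      have h2 : ∀ a, (N a : ℤ) * (wcr (e a) i (u a) j : ℤ) = (N a : ℤ) * u a j +
          (N a : ℤ) * dl i (e a) (u a) * ic i j := by
        intro a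
        rw [wcr_cast hi (pC a)]
        ring
      rw [Finset.sum_congr rfl fun a _ => h2 a, Finset.sum_add_distrib, ← Finset.sum_mul]
      have h3 : ((wcr d i w j : ℕ) : ℤ) = ((w' j + ∑ a, N a * u a j : ℕ) : ℤ) :=
        congrArg Nat.cast (h.mul j)
      push_cast at h3
      rw [h3]
      ring
    exact_mod_cast h1
  · intro a
    rw [ip_cr hi pM (pC a)]
    exact h.zero a
  · intro C0 e0 u0 h0
    have pMc := pM.cr hi
    have hPi := inj_of_alg hP
    have key : ∀ x y : Fin s, x ≠ y → wcr d' i w' x + wcr d' i w' y ≤ cd i d' w' →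
        (u0 x + u0 y ≤ e0 ∨ 0 ≤ ip (cd i d' w') (wcr d' i w') e0 u0) := by
      intro x y hxy hD
      rcases h0.pair hPi hxy with h1 | ⟨h1, h2, h3, h4⟩
      · exact Or.inl h1
      · right
        rw [h1, ip_line hxy h2 h3 h4]
        omega
    rcases key _ _ n01 pMc.p01 with q1 | q1
    · rcases key _ _ n02 pMc.p02 with q2 | q2
      · rcases key _ _ n12 pMc.p12 with q3 | q3
        · have p0 : PS i e0 u0 := ⟨q1, q2, q3⟩
          obtain ⟨C1, hC1⟩ := h0.cr hr p0
          have h5 := h.nef _ _ _ hC1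
          have h6 := ip_cr hi pM (p0.cr hi)
          rw [cd_cr hi p0, wcr_cr hi p0] at h6
          rw [h6]
          exact h5
        · exact q3
      · exact q2
    · exact q1

/-- Adding the multiple of a line. -/
theorem Dec.line {K : Type} [Field K] [CharZero K] {s : ℕ} {P : Fin s → Fin 2 → K}
    (hP : AlgebraicIndependent ℚ (fun ij : Fin s × Fin 2 => P ij.1 ij.2))
    {i j : Fin s} (hij : i ≠ j) {n : ℕ} (hn : 0 < n) {d : ℕ} {w : Fin s → ℕ} (hnd : n ≤ d)
    (hni : n ≤ w i) (hnj : n ≤ w j) (hs : d + n = w i + w j)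
    {d' : ℕ} {w' : Fin s → ℕ} {k : ℕ} {C : Fin k → MvPolynomial (Fin 3) K} {e : Fin k → ℕ}
    {u : Fin k → Fin s → ℕ} {N : Fin k → ℕ}
    (h : Dec P (d - n) (sb i j n w) d' w' C e u N) :
    Dec P d w d' w' (Fin.cons (ln (P i) (P j)) C) (Fin.cons 1 e)
      (Fin.cons (fun l => if l = i ∨ l = j then 1 else 0) u : Fin (k + 1) → Fin s → ℕ)
      (Fin.cons n N) := by
  classical
  have hL := exc_line hP hij
  have si : sb i j n w i = w i - n := by
    unfold sb
    rw [if_pos (Or.inl rfl)]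
  have sj : sb i j n w j = w j - n := by
    unfold sb
    rw [if_pos (Or.inr rfl)]
  have hDL : ip (d - n) (sb i j n w) 1 (fun l => if l = i ∨ l = j then 1 else 0) = 0 := by
    rw [ip_ind hij, si, sj]
    omega
  have hCL : ∀ a, 0 ≤ ip (e a) (u a) 1 (fun l => if l = i ∨ l = j then 1 else 0) := by
    intro a
    rw [ip_ind hij]
    rcases (h.exc a).pair (inj_of_alg hP) hij with h1 | ⟨h1, h2, h3, h4⟩
    · omega
    · exfalso
      have hneg := h.neg a
      have hpos := h.pos a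
      rw [h1, ip_line hij h2 h3 h4, si, sj] at hneg
      omega
  have hML := h.nef _ _ _ hL
  have hsum := h.ip_eq 1 (fun l => if l = i ∨ l = j then 1 else 0)
  rw [hDL] at hsum
  have hnn : ∀ a ∈ (Finset.univ : Finset (Fin k)), 0 ≤ (N a : ℤ) *
      ip (e a) (u a) 1 (fun l => if l = i ∨ l = j then 1 else 0) :=
    fun a _ => mul_nonneg (Int.natCast_nonneg _) (hCL a)
  have hS := Finset.sum_nonneg hnn
  have hS0 : ∑ a, (N a : ℤ) * ip (e a) (u a) 1 (fun l => if l = i ∨ l = j then 1 else 0) = 0 := by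
    omega
  have hM0 : ip d' w' 1 (fun l => if l = i ∨ l = j then 1 else 0) = 0 := by omega
  have hC0 : ∀ a, ip (e a) (u a) 1 (fun l => if l = i ∨ l = j then 1 else 0) = 0 := by
    intro a
    have h1 := (Finset.sum_eq_zero_iff_of_nonneg hnn).1 hS0 a (Finset.mem_univ a)
    rcases mul_eq_zero.1 h1 with h2 | h2
    · exfalso
      have := h.pos a
      have h3 : N a = 0 := by exact_mod_cast h2
      omega
    · exact h2
  refine ⟨?_, ?_, ?_, ?_, ?_, ?_, h.nef⟩
  · intro a
    refine Fin.cases ?_ (fun a => ?_) a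
    · exact hL
    · exact h.exc a
  · intro a
    refine Fin.cases ?_ (fun a => ?_) a
    · exact hn
    · exact h.pos a
  · intro a b
    refine Fin.cases ?_ (fun a => ?_) a
    · refine Fin.cases ?_ (fun b => ?_) b
      · intro h1
        exact absurd rfl h1
      · intro _
        rw [ip_comm]
        exact hC0 b
    · refine Fin.cases ?_ (fun b => ?_) b
      · intro _
        exact hC0 a
      · intro hab
        exact h.orth a b (fun h1 => hab (by rw [h1]))
  · rw [Fin.sum_univ_succ]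
    simp only [Fin.cons_zero, Fin.cons_succ]
    have := h.deg
    omega
  · intro l
    rw [Fin.sum_univ_succ]
    simp only [Fin.cons_zero, Fin.cons_succ]
    have h1 := h.mul l
    unfold sb at h1
    by_cases hl : l = i ∨ l = j
    · rw [if_pos hl] at h1 ⊢
      have h2 : n ≤ w l := by
        rcases hl with h3 | h3
        · rw [h3]; exact hni
        · rw [h3]; exact hnj
      omega
    · rw [if_neg hl] at h1 ⊢
      omega
  · intro a
    refine Fin.cases ?_ (fun a => ?_) a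
    · exact hM0
    · exact h.zero a

end Pool.Agent.TH167.SH
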