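import Pool.Agent.TH167.SH.Defs

set_option autoImplicit false

/-!
# The possible exceptions
-/

namespace Pool.Agent.TH167.SHDefs

open MvPolynomial

/-- The possible exceptions: the linear system has dimension less than `B - 1` and arithmetic genus
less than `B`, and after the removal of disjoint `(-1)`-curves and finitely many quadratic
transformations it becomes a special system of the same dimension in the finite list. -/
def Exceptional {K : Type} [Field K] {s : ℕ} (B : ℕ) (P : Fin s → Fin 2 → K) (d : ℕ)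
    (w : Fin s → ℕ) : Prop :=
  ∃ (d' : ℕ) (w' : Fin s → ℕ) (k : ℕ) (G : Fin k → MvPolynomial (Fin 3) K)
    (e : Fin k → ℕ) (u : Fin k → Fin s → ℕ) (N : Fin k → ℕ) (d1 : ℕ) (w1 : Fin s → ℕ),
    Decomp P d w d' w' G e u N ∧ ReducesTo B d' w' d1 w1 ∧ Special P d1 w1 ∧
    dimL P d1 w1 = dimL P d w ∧ dimL P d w < (B : ℤ) - 1 ∧
    ((d : ℤ) - 1) * ((d : ℤ) - 2) - ∑ i, (w i : ℤ) * ((w i : ℤ) - 1) < 2 * (B : ℤ)

end Pool.Agent.TH167.SHDefs
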