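import Pool.Agent.TH167.SH.Conv

set_option autoImplicit false

/-!
# Irreducible curves
-/

namespace Pool.Agent.TH167.SH

open MvPolynomial Pool.Agent.W609 Pool.Agent.W609.CR

theorem vs_zero {K : Type} [Field K] {s : ℕ} (v : Fin s → Fin 3 → K) (d : ℕ) :
    Module.finrank K ↥(VS v (fun _ => 0) d) = (d + 2).choose 2 := by
  have h : VS v (fun _ => 0) d = homogeneousSubmodule (Fin 3) K d := by
    ext f
    rw [mem_VS, mem_homogeneousSubmodule]
    exact ⟨fun h => h.1, fun h => ⟨h, fun i => van_zero _ _⟩⟩
  rw [h, H248R6.finrank_homog]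

/-- A quadratic transformation which lowers the degree. -/
theorem exists_step {r m d : ℕ} {w : Fin (r + 4) → ℕ} (hw : Few m d w) (hnr : ¬ Reduced d w)
    (hp : ∀ i j, i ≠ j → w i + w j ≤ d) :
    ∃ i : Fin 3 → Fin (r + 4), Function.Injective i ∧ PS i d w ∧ Few m (cd i d w) (wcr d i w) ∧
      cd i d w < d ∧ ∀ j, wcr d i w j ≤ w j := by
  classical
  have n0 : ((0 : Fin (r + 4)) : ℕ) = 0 := rfl
  have n1 : ((1 : Fin (r + 4)) : ℕ) = 1 := Nat.mod_eq_of_lt (show 1 < r + 4 by omega)
  have n2 : ((2 : Fin (r + 4)) : ℕ) = 2 := Nat.mod_eq_of_lt (show 2 < r + 4 by omega)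
  obtain ⟨σ, hσ⟩ := exists_sort w
  have ne01 : σ 0 ≠ σ 1 := fun h => by
    have := congrArg Fin.val (σ.injective h)
    rw [n0, n1] at this
    omega
  have h21 : w (σ 1) ≤ w (σ 0) := hσ (by rw [Fin.le_def, n1, n0]; omega)
  have h32 : w (σ 2) ≤ w (σ 1) := hσ (by rw [Fin.le_def, n1, n2]; omega)
  have hpr := hp _ _ ne01
  have hlt : d < w (σ 0) + w (σ 1) + w (σ 2) := by
    by_contra hge
    push Not at hge
    apply hnr
    intro i j k hij hik hjk
    have hw' : ∀ l, w l = (fun j => w (σ j)) (σ.symm l) := by
      intro l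
      show w l = w (σ (σ.symm l))
      rw [σ.apply_symm_apply]
    rw [hw' i, hw' j, hw' k]
    refine le_trans ?_ hge
    have hij' : σ.symm i ≠ σ.symm j := fun h => hij (σ.symm.injective h)
    have hik' : σ.symm i ≠ σ.symm k := fun h => hik (σ.symm.injective h)
    have hjk' : σ.symm j ≠ σ.symm k := fun h => hjk (σ.symm.injective h)
    exact three_sorted hσ hij' hik' hjk'
  obtain ⟨i, hi⟩ : ∃ i : Fin 3 → Fin (r + 4), i = fun k => σ ⟨k.1, by omega⟩ := ⟨_, rfl⟩
  have hinj : Function.Injective i := by
    intro a b hab
    rw [hi] at hab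
    have h1 := σ.injective hab
    exact Fin.ext (Fin.mk.inj h1)
  have i0 : i 0 = σ 0 := by
    rw [hi]
    rfl
  have i1 : i 1 = σ 1 := by
    rw [hi]
    show σ _ = σ 1
    congr 1
  have i2 : i 2 = σ 2 := by
    rw [hi]
    show σ _ = σ 2
    congr 1
  have p : PS i d w := by
    constructor
    · rw [i0, i1]; omega
    · rw [i0, i2]; omega
    · rw [i1, i2]; omega
  have hcdv : cd i d w = 2 * d - (w (σ 0) + w (σ 1) + w (σ 2)) := by
    unfold cd
    rw [i0, i1, i2]
  obtain ⟨t, ht⟩ : ∃ t, t = w (σ 0) + w (σ 1) + w (σ 2) - d := ⟨_, rfl⟩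
  have hwle : ∀ j, wcr d i w j ≤ w j := by
    intro j
    unfold wcr
    rw [i0, i1, i2]
    split_ifs with c0 c1 c2
    · rw [c0]; omega
    · rw [c1]; omega
    · rw [c2]; omega
    · exact le_rfl
  have hfew : Few m (cd i d w) (wcr d i w) := by
    rcases hw with h | h
    · exact few_of_le hwle h
    · rcases Nat.lt_or_ge m (w (σ 2)) with hm1 | hm1
      · right
        have h2 : ∀ j, ((if m < wcr d i w j then wcr d i w j else 0 : ℕ) : ℤ) +
            ic i j * t ≤ ((if m < w j then w j else 0 : ℕ) : ℤ) := by
          intro j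
          unfold ic
          by_cases hj : j = i 0 ∨ j = i 1 ∨ j = i 2
          · have hwj : m < w j ∧ wcr d i w j + t = w j := by
              unfold wcr
              rcases hj with hj | hj | hj
              · rw [if_pos hj, hj, i0, i1, i2]
                omega
              · rw [if_neg (by rw [hj]; exact ne10 hinj), if_pos hj, hj, i0, i1, i2]
                omega
              · rw [if_neg (by rw [hj]; exact ne20 hinj),
                  if_neg (by rw [hj]; exact ne21 hinj), if_pos hj, hj, i0, i1, i2]
                omega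
            rw [if_pos hj, if_pos hwj.1]
            split_ifs <;> omega
          · have hwj : wcr d i w j = w j := by
              unfold wcr
              rw [if_neg (by tauto), if_neg (by tauto), if_neg (by tauto)]
            rw [if_neg hj, hwj]
            omega
        have h3 := Finset.sum_le_sum (s := Finset.univ) fun j _ => h2 j
        rw [Finset.sum_add_distrib, sum_ic hinj (fun _ => (t : ℤ)), ← Nat.cast_sum,
          ← Nat.cast_sum] at h3
        omega
      · -- at most two large multiplicities
        refine few_of_le hwle ?_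
        have h1 : (Finset.univ.filter fun i => m < w i) ⊆ {σ 0, σ 1} := by
          intro j hj
          rw [Finset.mem_filter] at hj
          rw [Finset.mem_insert, Finset.mem_singleton]
          by_contra hcon
          push Not at hcon
          have hj0 : σ.symm j ≠ 0 := fun h => hcon.1 (by rw [← h, σ.apply_symm_apply])
          have hj1 : σ.symm j ≠ 1 := fun h => hcon.2 (by rw [← h, σ.apply_symm_apply])
          have h2 : (2 : Fin (r + 4)) ≤ σ.symm j := by
            rw [Fin.le_def, n2]
            have e0 : ((σ.symm j : Fin (r + 4)) : ℕ) ≠ 0 := fun h => hj0 (Fin.ext h)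
            have e1 : ((σ.symm j : Fin (r + 4)) : ℕ) ≠ 1 := fun h =>
              hj1 (Fin.ext (by rw [n1]; exact h))
            omega
          have h3 : w (σ (σ.symm j)) ≤ w (σ 2) := hσ h2
          rw [σ.apply_symm_apply] at h3
          omega
        exact (Finset.card_le_card h1).trans ((Finset.card_insert_le _ _).trans (by simp))
  exact ⟨i, hinj, p, hfew, by omega, hwle⟩

theorem chi_cast {s : ℕ} (d : ℕ) (w : Fin s → ℕ) :
    chi d w = ((d + 2).choose 2 : ℤ) - ((∑ j, (w j + 1).choose 2 : ℕ) : ℤ) := by
  unfold chi
  push_cast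
  rfl

theorem kk_cast {s : ℕ} (d : ℕ) (w : Fin s → ℕ) :
    kk d w = 3 * (d : ℤ) - ((∑ j, w j : ℕ) : ℤ) := by
  unfold kk
  push_cast
  rfl

theorem irr_main {K : Type} [Field K] [CharZero K] {r m B : ℕ} (hm : 0 < m)
    (hB : B = 131072 * (4 * m ^ 2 + 8 * m + 5) ^ 4) :
    ∀ (e : ℕ) (P : Fin (r + 4) → Fin 2 → K)
      (_ : AlgebraicIndependent ℚ (fun ij : Fin (r + 4) × Fin 2 => P ij.1 ij.2))
      (w : Fin (r + 4) → ℕ) (_ : Few m e w)
      (G : MvPolynomial (Fin 3) K) (_ : Irreducible G) (_ : G.IsHomogeneous e)
      (_ : ∀ j, Ord (aff (P j)) (w j) G),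
      ((Module.finrank K ↥(VS (fun j => aff (P j)) w e) : ℤ) = chi e w ∧
        (ip e w e w < 0 → ip e w e w = -1 ∧ kk e w = 1)) ∨
      ∃ (P1 : Fin (r + 4) → Fin 2 → K) (e1 : ℕ) (w1 : Fin (r + 4) → ℕ)
        (G1 : MvPolynomial (Fin 3) K),
        AlgebraicIndependent ℚ (fun ij : Fin (r + 4) × Fin 2 => P1 ij.1 ij.2) ∧
        Irreducible G1 ∧ G1.IsHomogeneous e1 ∧ (∀ j, Ord (aff (P1 j)) (w1 j) G1) ∧
        Relation.ReflTransGen Quad (e, w) (e1, w1) ∧ Reduced e1 w1 ∧ e1 < B ∧
        (Finset.univ.filter fun j => w1 j ≠ 0).card < B + 3 ∧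
        Module.finrank K ↥(VS (fun j => aff (P1 j)) w1 e1) =
          Module.finrank K ↥(VS (fun j => aff (P j)) w e) ∧
        Module.finrank K ↥(VS (fun j => aff (P j)) w e) < B ∧ chi e w - kk e w < B ∧
        (Module.finrank K ↥(VS (fun j => aff (P j)) w e) : ℤ) ≠ chi e w := by
  classical
  intro e
  induction e using Nat.strong_induction_on with
  | _ e ih =>
    intro P hP w hw G hG hGe hord
    have he0 := deg_pos hG hGe
    have hwd : ∀ j, w j ≤ e := fun j => van_le hG.ne_zero hGe (hord j).1
    have hGmem : G ∈ VS (fun j => aff (P j)) w e := by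
      rw [mem_VS]
      exact ⟨hGe, fun j => (hord j).1⟩
    have hpos : 0 < Module.finrank K ↥(VS (fun j => aff (P j)) w e) := by
      have hf := vs_fin (fun j => aff (P j)) w e
      rw [Module.finrank_pos_iff]
      exact ⟨⟨⟨G, hGmem⟩, 0, fun h => hG.ne_zero (congrArg Subtype.val h)⟩⟩
    by_cases hpair : ∀ i j, i ≠ j → w i + w j ≤ e
    · by_cases hred : Reduced e w
      · -- the reduced case
        by_cases hns : (Module.finrank K ↥(VS (fun j => aff (P j)) w e) : ℤ) = chi e w
        · left
          refine ⟨hns, fun hneg => ?_⟩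
          exfalso
          have h1 := two_chi e w
          have h2 : 0 ≤ kk e w := by omega
          rw [kk_cast] at h2
          have h3 := red_ip hred hwd (by omega)
          omega
        · right
          rcases red_case hm hB hP hw hred with h | ⟨b1, b2, b3, b4⟩
          · exfalso
            apply hns
            rw [chi_cast]
            omega
          · refine ⟨P, e, w, G, hP, hG, hGe, hord, Relation.ReflTransGen.refl, hred, b1, b2, rfl,
              b3, ?_, hns⟩
            rw [chi_cast, kk_cast]
            omega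
      · -- a quadratic transformation
        obtain ⟨i, hinj, p, hfew, hlt, hwle⟩ := exists_step hw hred hpair
        obtain ⟨P', hP', hr⟩ := exists_crel hP hinj
        have hdim := hr.dim p
        obtain ⟨G', hG', hGe', hord'⟩ := hr.irr hG hGe hord p.p01 p.p02 p.p12
        have hq : Relation.ReflTransGen Quad (e, w) (cd i e w, wcr e i w) :=
          Relation.ReflTransGen.single ⟨i, hinj, p, rfl⟩
        obtain ⟨c1, c2, c3⟩ := quad_inv hq
        simp only at c1 c2 c3
        rcases ih (cd i e w) hlt P' hP' (wcr e i w) hfew G' hG' hGe' hord' with h | h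
        · left
          rw [hdim, c1, c2, c3] at h
          exact h
        · right
          rw [hdim, c1, c2] at h
          obtain ⟨P1, e1, w1, G1, a1, a2, a3, a4, a5, a6, a7, a8, a9, a10, a11, a12⟩ := h
          exact ⟨P1, e1, w1, G1, a1, a2, a3, a4, hq.trans a5, a6, a7, a8, a9, a10, a11, a12⟩
    · -- a line
      left
      push Not at hpair
      obtain ⟨a, b, hab, hlt⟩ := hpair
      rcases pair_irr (inj_of_alg hP) hG hGe hord hab with h | ⟨he1, ha, hb⟩
      · omega
      · subst he1
        have ha1 : w a = 1 := le_antisymm (hwd a) ha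
        have hb1 : w b = 1 := le_antisymm (hwd b) hb
        have hz : ∀ l, l ≠ a → l ≠ b → w l = 0 := by
          intro l hla hlb
          by_contra hne
          have h1 : 1 ≤ w l := Nat.one_le_iff_ne_zero.2 hne
          refine line_two hP hG.ne_zero hGe ![a, b, l] (inj_cons hab hla.symm hlb.symm) ?_
          intro k
          fin_cases k
          · exact van_mono ha (hord a).1
          · exact van_mono hb (hord b).1
          · exact van_mono h1 (hord l).1
        have hwe : w = fun l => if l = a ∨ l = b then 1 else 0 := by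
          funext l
          by_cases h : l = a ∨ l = b
          · rw [if_pos h]
            rcases h with h | h
            · rw [h, ha1]
            · rw [h, hb1]
          · rw [if_neg h]
            push Not at h
            exact hz l h.1 h.2
        have hE := exc_line hP hab
        rw [← hwe] at hE
        have hs1 := self_iff.1 hE.self
        have hs2 := can_iff.1 hE.can
        refine ⟨?_, fun _ => ⟨hs1, hs2⟩⟩
        have h3 := line_k hP hab 1 w 1 le_rfl ha hb (by omega)
        have h4 : sb a b 1 w = fun _ => 0 := by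
          funext l
          unfold sb
          by_cases h : l = a ∨ l = b
          · rw [if_pos h]
            rcases h with h | h
            · rw [h, ha1]
            · rw [h, hb1]
          · rw [if_neg h]
            push Not at h
            exact hz l h.1 h.2
        rw [h3, h4, vs_zero]
        have h5 := two_chi 1 w
        rw [hs1, hs2] at h5
        have h6 : chi 1 w = 1 := by omega
        rw [h6]
        rfl

end Pool.Agent.TH167.SH
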